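import Pool.Agent.Q283.FT.Stm2
import Pool.Agent.Q283.FT.D.NInvA

set_option autoImplicit false

/-!
# Project FT (helper283), job CLE: a totally singular subspace has at most `4 ^ f` elements
-/

namespace Pool.Agent.Q223.FT

open Finset Module
open Pool.Agent.Q283.FT
open Pool.Agent.Q283.FT.D (pol pol_apply pol_nondeg pol_symm)

/-- the sum of the pairings of the components -/
noncomputable def omS (f : ℕ) : (Fin f → U2) →ₗ[ZMod 2] (Fin f → U2) →ₗ[ZMod 2] ZMod 2 :=
  LinearMap.mk₂ (ZMod 2) (fun x y => ∑ t, om (x t) (y t))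
    (fun x x' y => by simp only [Pi.add_apply, map_add, LinearMap.add_apply, sum_add_distrib])
    (fun a x y => by simp only [Pi.smul_apply, map_smul, LinearMap.smul_apply, smul_sum])
    (fun x y y' => by simp only [Pi.add_apply, map_add, sum_add_distrib])
    (fun a x y => by simp only [Pi.smul_apply, map_smul, smul_sum])

theorem om_apply (x y : U2) : om x y = x.1 * y.2 + x.2 * y.1 := rfl

theorem omS_apply {f : ℕ} (x y : Fin f → U2) : omS f x y = ∑ t, om (x t) (y t) := rfl

theorem om_self (x : U2) : om x x = 0 := by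
  have h : ∀ a b : ZMod 2, a * b + b * a = 0 := by decide
  exact h _ _

theorem omS_self {f : ℕ} (x : Fin f → U2) : omS f x x = 0 := by
  rw [omS_apply]
  exact sum_eq_zero fun t _ => om_self _

theorem om_nd (x : U2) (h : ∀ y, om x y = 0) : x = 0 := by
  have h1 := h (1, 0)
  have h2 := h (0, 1)
  rw [om_apply] at h1 h2
  simp only [mul_zero, mul_one, zero_add, add_zero] at h1 h2
  exact Prod.ext h2 h1

theorem omS_nd {f : ℕ} (x : Fin f → U2) (h : ∀ y, omS f x y = 0) : x = 0 := by
  funext t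
  refine om_nd _ fun y => ?_
  have h1 := h (Pi.single t y)
  rw [omS_apply, sum_eq_single t, Pi.single_eq_same] at h1
  · exact h1
  · intro s _ hs
    rw [Pi.single_eq_of_ne hs, map_zero]
  · intro h2
    exact absurd (mem_univ _) h2

theorem opT_symm {f : ℕ} (c : Fin 3 → Fin f → ZMod 2) (w φ : Fin f → ZMod 2) (x y : U2) :
    om x (opT c w φ y) = om y (opT c w φ x) := by
  rw [om_apply, om_apply]
  have h : ∀ z : U2, opT c w φ z =
      (Q7.LK.dot φ (c 2) * (z.1 + z.2) + Q7.LK.dot φ (c 1) * z.2 + Q7.LK.dot φ w * z.1,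
        Q7.LK.dot φ (c 2) * (z.1 + z.2) + Q7.LK.dot φ (c 0) * z.1 + Q7.LK.dot φ w * z.2) :=
    fun z => rfl
  rw [h, h]
  ring

/-- the quadratic form of the operators is additive -/
theorem quad_add {f : ℕ} (c : Fin 3 → Fin f → ZMod 2) (w φ : Fin f → ZMod 2) (x y : U2) :
    om (x + y) (opT c w φ (x + y)) = om x (opT c w φ x) + om y (opT c w φ y) := by
  simp only [map_add, LinearMap.add_apply]
  rw [opT_symm c w φ y x]
  have h : ∀ a b d : ZMod 2, a + b + (b + d) = a + d := by decide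
  exact h _ _ _

theorem q_add {f : ℕ} (t₀ : Fin f) (c : Fin 3 → Fin f → ZMod 2) (w : Fin f → ZMod 2)
    (𝓛 : Submodule (ZMod 2) ((Fin f → U2) × (Fin f → U2))) (x y : (Fin f → U2) × (Fin f → U2)) :
    (dj t₀ c w 𝓛).q (x + y) =
      (dj t₀ c w 𝓛).q x + (dj t₀ c w 𝓛).q y + pol (omS f) x y := by
  obtain ⟨φ, hq⟩ : ∃ φ : Fin f → Fin f → ZMod 2, ∀ z : (Fin f → U2) × (Fin f → U2),
      (dj t₀ c w 𝓛).q z = omS f z.2 z.1 + ∑ t, om (z.2 t) (opT c w (φ t) (z.2 t)) :=
    ⟨fun t => @Pi.single (Fin f) (fun _ => ZMod 2) (fun _ => inferInstance)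
      (fun a b => Classical.propDecidable (a = b)) t 1, fun z => rfl⟩
  rw [hq, hq, hq, pol_apply]
  have h1 : ∑ t, om ((x + y).2 t) (opT c w (φ t) ((x + y).2 t)) =
      ∑ t, om (x.2 t) (opT c w (φ t) (x.2 t)) + ∑ t, om (y.2 t) (opT c w (φ t) (y.2 t)) := by
    rw [← sum_add_distrib]
    refine sum_congr rfl fun t _ => ?_
    rw [Prod.snd_add, Pi.add_apply]
    exact quad_add c w _ _ _
  rw [h1, Prod.snd_add, Prod.fst_add]
  simp only [map_add, LinearMap.add_apply]
  ring

/-- JOB CLE -/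
theorem cle : S_CLE := by
  intro f t₀ c w 𝓛 h
  have hnd : (pol (omS f)).Nondegenerate := by
    constructor
    · intro x hx
      exact pol_nondeg omS_self omS_nd x hx
    · intro y hy
      exact pol_nondeg omS_self omS_nd y fun z => by
        rw [pol_symm]
        exact hy z
  have h1 : 𝓛 ≤ (pol (omS f)).orthogonal 𝓛 := by
    intro y hy
    rw [LinearMap.BilinForm.mem_orthogonal_iff]
    intro z hz
    have h2 := q_add t₀ c w 𝓛 z y
    rw [h _ hz, h _ hy, h _ (𝓛.add_mem hz hy), zero_add, zero_add] at h2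
    exact h2.symm
  have h2 := LinearMap.BilinForm.finrank_orthogonal hnd 𝓛
  have h3 := Submodule.finrank_mono h1
  have h4 : finrank (ZMod 2) ((Fin f → U2) × (Fin f → U2)) = 4 * f := by
    rw [Module.finrank_prod, Module.finrank_pi_fintype]
    simp only [Module.finrank_prod, Module.finrank_self, sum_const, card_univ, Fintype.card_fin,
      smul_eq_mul]
    ring
  rw [h4] at h2
  have h5 : finrank (ZMod 2) 𝓛 ≤ 2 * f := by omega
  have h6 := Module.natCard_eq_pow_finrank (K := ZMod 2) (V := 𝓛)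
  rw [h6, Nat.card_zmod]
  calc 2 ^ finrank (ZMod 2) 𝓛 ≤ 2 ^ (2 * f) := Nat.pow_le_pow_right (by norm_num) h5
    _ = 4 ^ f := by rw [pow_mul]; norm_num

end Pool.Agent.Q223.FT
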